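import Pool.Agent.helper22.RG9.Spec

/-!
# Project rg9, row ADI: a subspace of matrices stable under conjugation by `SL(n, ℤ)` which contains a nonzero nilpotent matrix
-/

set_option autoImplicit false

namespace Pool.Agent.RG9

open Matrix Pool.Agent.H48SL Pool.Agent.UG

/-- the elementary matrix -/
theorem ADI_g {n : ℕ} (k l : Fin n) (h : k ≠ l) : ∃ g : SLZ n, qg g = 1 + Matrix.single k l (1 : ℚ) ∧ qg g⁻¹ = 1 - Matrix.single k l (1 : ℚ) := by
  refine ⟨⟨Matrix.transvection k l 1, Matrix.det_transvection_of_ne k l h 1⟩, ?_⟩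
  have h1 : qg (⟨Matrix.transvection k l 1, Matrix.det_transvection_of_ne k l h 1⟩ : SLZ n) = 1 + Matrix.single k l (1 : ℚ) := by
    ext i j
    rw [qg_apply]
    show (((1 + Matrix.single k l (1 : ℤ) : Matrix (Fin n) (Fin n) ℤ) i j : ℤ) : ℚ) = _
    rw [Matrix.add_apply, Matrix.add_apply, Matrix.one_apply, Matrix.one_apply, Matrix.single_apply, Matrix.single_apply]
    push_cast
    rfl
  refine ⟨h1, ?_⟩
  have h2 := qg_mul_inv (⟨Matrix.transvection k l 1, Matrix.det_transvection_of_ne k l h 1⟩ : SLZ n)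
  rw [h1] at h2
  have h3 : (1 - Matrix.single k l (1 : ℚ)) * (1 + Matrix.single k l (1 : ℚ)) = 1 := by
    have h4 : Matrix.single k l (1 : ℚ) * Matrix.single k l (1 : ℚ) = 0 := Matrix.single_mul_single_of_ne _ _ _ _ h.symm _
    noncomm_ring
    rw [h4]
    simp
  calc qg (⟨Matrix.transvection k l 1, Matrix.det_transvection_of_ne k l h 1⟩ : SLZ n)⁻¹ =
        ((1 - Matrix.single k l (1 : ℚ)) * (1 + Matrix.single k l (1 : ℚ))) * qg (⟨Matrix.transvection k l 1, Matrix.det_transvection_of_ne k l h 1⟩ : SLZ n)⁻¹ := by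
          rw [h3, one_mul]
    _ = 1 - Matrix.single k l (1 : ℚ) := by rw [mul_assoc, h2, mul_one]

theorem ADI_two {n : ℕ} {S : Submodule ℚ (MQ n)} (hS : ∀ (g : SLZ n), ∀ Z ∈ S, qg g * Z * qg g⁻¹ ∈ S) (k l : Fin n) (h : k ≠ l) (M : MQ n) (hM : M ∈ S) :
    Matrix.single k l (1 : ℚ) * M - M * Matrix.single k l (1 : ℚ) ∈ S ∧ Matrix.single k l (M l k) ∈ S := by
  obtain ⟨g, hg, hg'⟩ := ADI_g k l h
  have h1 := hS g M hM
  have h2 := hS g⁻¹ M hM
  rw [inv_inv] at h2
  rw [hg, hg'] at h1 h2
  have e1 : (1 + Matrix.single k l (1 : ℚ)) * M * (1 - Matrix.single k l (1 : ℚ)) - (1 - Matrix.single k l (1 : ℚ)) * M * (1 + Matrix.single k l (1 : ℚ)) =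
      (2 : ℚ) • (Matrix.single k l (1 : ℚ) * M - M * Matrix.single k l (1 : ℚ)) := by
    rw [two_smul]
    noncomm_ring
  have e2 : (2 : ℚ) • M - ((1 + Matrix.single k l (1 : ℚ)) * M * (1 - Matrix.single k l (1 : ℚ)) + (1 - Matrix.single k l (1 : ℚ)) * M * (1 + Matrix.single k l (1 : ℚ))) =
      (2 : ℚ) • (Matrix.single k l (1 : ℚ) * M * Matrix.single k l (1 : ℚ)) := by
    rw [two_smul, two_smul]
    noncomm_ring
  have m1 := S.sub_mem h1 h2
  rw [e1] at m1
  have m2 := S.sub_mem (S.smul_mem (2 : ℚ) hM) (S.add_mem h1 h2)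
  rw [e2] at m2
  have k1 := S.smul_mem (2⁻¹ : ℚ) m1
  have k2 := S.smul_mem (2⁻¹ : ℚ) m2
  rw [smul_smul, inv_mul_cancel₀ (two_ne_zero), one_smul] at k1 k2
  refine ⟨k1, ?_⟩
  rw [Matrix.single_mul_mul_single, one_mul, mul_one] at k2
  exact k2

/-- a nonzero nilpotent matrix has a nonzero entry off the diagonal -/
theorem ADI_off {n : ℕ} (N : MQ n) (hN : IsNilpotent N) (h0 : N ≠ 0) : ∃ k l : Fin n, k ≠ l ∧ N l k ≠ 0 := by
  by_contra h
  push Not at h
  have h1 : N = Matrix.diagonal (fun i => N i i) := by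
    ext i j
    by_cases hij : i = j
    · subst hij
      rw [Matrix.diagonal_apply_eq]
    · rw [Matrix.diagonal_apply_ne _ hij]
      exact h j i (Ne.symm hij)
  obtain ⟨m, hm⟩ := hN
  rw [h1, Matrix.diagonal_pow] at hm
  apply h0
  rw [h1]
  ext i j
  by_cases hij : i = j
  · subst hij
    have h2 := congrFun (congrFun hm i) i
    rw [Matrix.diagonal_apply_eq, Pi.pow_apply, Matrix.zero_apply] at h2
    rw [Matrix.diagonal_apply_eq, Matrix.zero_apply]
    exact eq_zero_of_pow_eq_zero h2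
  · rw [Matrix.diagonal_apply_ne _ hij, Matrix.zero_apply]

theorem ADI : ADI_stmt := by
  intro n hn S hS N hN hnil hN0 M hM
  obtain ⟨k, l, hkl, hNkl⟩ := ADI_off N hnil hN0
  have hkl1 : Matrix.single k l (1 : ℚ) ∈ S := by
    have h1 := S.smul_mem (N l k)⁻¹ (ADI_two hS k l hkl N hN).2
    rw [Matrix.smul_single, smul_eq_mul, inv_mul_cancel₀ hNkl] at h1
    exact h1
  have hbr : ∀ a b c : Fin n, a ≠ b → a ≠ c → Matrix.single b c (1 : ℚ) ∈ S → Matrix.single a c (1 : ℚ) ∈ S := by
    intro a b c hab hac h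
    have h1 := (ADI_two hS a b hab _ h).1
    rw [Matrix.single_mul_single_same, Matrix.single_mul_single_of_ne _ _ _ _ hac.symm, mul_one, sub_zero] at h1
    exact h1
  have hbr' : ∀ a b c : Fin n, b ≠ c → a ≠ c → Matrix.single a b (1 : ℚ) ∈ S → Matrix.single a c (1 : ℚ) ∈ S := by
    intro a b c hbc hac h
    have h1 := (ADI_two hS b c hbc _ h).1
    rw [Matrix.single_mul_single_same, Matrix.single_mul_single_of_ne _ _ _ _ hac.symm, mul_one, zero_sub] at h1
    have h2 := S.neg_mem h1
    rw [neg_neg] at h2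
    exact h2
  have hcol : ∀ i, i ≠ l → Matrix.single i l (1 : ℚ) ∈ S := by
    intro i hi
    by_cases hik : i = k
    · rw [hik]
      exact hkl1
    · exact hbr i k l hik hi hkl1
  have hmost : ∀ i j, i ≠ l → i ≠ j → Matrix.single i j (1 : ℚ) ∈ S := by
    intro i j hi hij
    by_cases hjl : j = l
    · rw [hjl]
      exact hcol i hi
    · exact hbr' i l j (Ne.symm hjl) hij (hcol i hi)
  have hall : ∀ i j, i ≠ j → Matrix.single i j (1 : ℚ) ∈ S := by
    intro i j hij
    by_cases hi : i = l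
    · subst hi
      obtain ⟨a, ha⟩ : ∃ a : Fin n, a ≠ i ∧ a ≠ j := by
        have hc : ({i, j} : Finset (Fin n)).card < (Finset.univ : Finset (Fin n)).card := by
          rw [Finset.card_univ, Fintype.card_fin]
          exact lt_of_le_of_lt Finset.card_le_two (by omega)
        obtain ⟨a, -, ha⟩ := Finset.exists_mem_notMem_of_card_lt_card hc
        rw [Finset.mem_insert, Finset.mem_singleton, not_or] at ha
        exact ⟨a, ha⟩
      exact hbr i a j (Ne.symm ha.1) hij (hmost a j ha.1 ha.2)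
    · exact hmost i j hi hij
  have hdiag : ∀ i j, Matrix.single i i (1 : ℚ) - Matrix.single j j (1 : ℚ) ∈ S := by
    intro i j
    by_cases hij : i = j
    · rw [hij, sub_self]
      exact S.zero_mem
    · have h1 := (ADI_two hS i j hij _ (hall j i (Ne.symm hij))).1
      rw [Matrix.single_mul_single_same, Matrix.single_mul_single_same, mul_one] at h1
      exact h1
  have hF : ∀ i j, Matrix.single i j (1 : ℚ) - (if i = j then Matrix.single k k (1 : ℚ) else 0) ∈ S := by
    intro i j
    by_cases hij : i = j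
    · subst hij
      rw [if_pos rfl]
      exact hdiag i k
    · rw [if_neg hij, sub_zero]
      exact hall i j hij
  have hsum : M = ∑ i, ∑ j, M i j • (Matrix.single i j (1 : ℚ) - (if i = j then Matrix.single k k (1 : ℚ) else 0)) := by
    have h1 : ∑ i, ∑ j, M i j • (if i = j then Matrix.single k k (1 : ℚ) else (0 : MQ n)) = 0 := by
      have h2 : ∀ i, ∑ j, M i j • (if i = j then Matrix.single k k (1 : ℚ) else (0 : MQ n)) = M i i • Matrix.single k k (1 : ℚ) := by
        intro i
        rw [Finset.sum_eq_single i]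
        · rw [if_pos rfl]
        · intro j _ hj
          rw [if_neg (Ne.symm hj), smul_zero]
        · intro h
          exact absurd (Finset.mem_univ i) h
      rw [Finset.sum_congr rfl fun i _ => h2 i, ← Finset.sum_smul]
      have h3 : ∑ i, M i i = 0 := hM
      rw [h3, zero_smul]
    have h4 : ∀ i j, M i j • (Matrix.single i j (1 : ℚ) - (if i = j then Matrix.single k k (1 : ℚ) else (0 : MQ n))) =
        Matrix.single i j (M i j) - M i j • (if i = j then Matrix.single k k (1 : ℚ) else (0 : MQ n)) := by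
      intro i j
      rw [smul_sub, Matrix.smul_single, smul_eq_mul, mul_one]
    rw [Finset.sum_congr rfl fun i _ => Finset.sum_congr rfl fun j _ => h4 i j]
    rw [Finset.sum_congr rfl fun i _ => Finset.sum_sub_distrib _ _, Finset.sum_sub_distrib, h1, sub_zero]
    exact Matrix.matrix_eq_sum_single M
  rw [hsum]
  exact S.sum_mem fun i _ => S.sum_mem fun j _ => S.smul_mem _ (hF i j)

end Pool.Agent.RG9
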