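import Pool.Agent.helper22.RG9.Spec2

/-!
# Project rg9, row `WGI`: the image of a weak grading under a power representation is a weak grading
-/

set_option autoImplicit false

namespace Pool.Agent.RG9

open Matrix Pool.Agent.H48SL Pool.Agent.UG

theorem WGI_mem {D : Type} [Group D] {n : ℕ} (F : D → SLZ n) (X : Subgroup D) {x : D} (hx : x ∈ X) : F x ∈ im F X :=
  Subgroup.subset_closure ⟨x, hx, rfl⟩

theorem WGI_com {D : Type} [Group D] {n m N k : ℕ} {F : D → SLZ n} (hF : PR k F) {X : Fin m → Fin m → Subgroup D} (hX : WG N X)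
    {i j l : Fin m} (hij : i ≠ j) (hjl : j ≠ l) (hil : i ≠ l) {a b : D} (ha : a ∈ X i j) (hb : b ∈ X j l) :
    F a * F b * (F a)⁻¹ * (F b)⁻¹ = F (a * b * a⁻¹ * b⁻¹) ^ k := by
  have hc : a * b * a⁻¹ * b⁻¹ ∈ X i l := hX.sub i j l hij hjl hil a ha b hb
  exact hF.com a b _ rfl (hX.comm i l i j hil hij hil.symm hij _ hc a ha) (hX.comm i l j l hil hjl hjl.symm hil _ hc b hb)

theorem WGI_clo {D : Type} [Group D] {n m N k : ℕ} {F : D → SLZ n} (hF : PR k F) (h1 : F 1 = 1) (hinv : ∀ x, F x⁻¹ = (F x)⁻¹)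
    {X : Fin m → Fin m → Subgroup D} (hX : WG N X)
    {i j l : Fin m} (hij : i ≠ j) (hjl : j ≠ l) (hil : i ≠ l) (h : D)
    (hh : h ∈ Subgroup.closure {g | ∃ x ∈ X i j, ∃ y ∈ X j l, g = x * y * x⁻¹ * y⁻¹}) :
    h ∈ X i l ∧ F h ^ k ∈ Subgroup.closure {g | ∃ x ∈ im F (X i j), ∃ y ∈ im F (X j l), g = x * y * x⁻¹ * y⁻¹} := by
  induction hh using Subgroup.closure_induction with
  | mem g hg =>
    obtain ⟨a, ha, b, hb, rfl⟩ := hg
    refine ⟨hX.sub i j l hij hjl hil a ha b hb, Subgroup.subset_closure ⟨F a, WGI_mem F _ ha, F b, WGI_mem F _ hb, ?_⟩⟩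
    exact (WGI_com hF hX hij hjl hil ha hb).symm
  | one =>
    refine ⟨Subgroup.one_mem _, ?_⟩
    rw [h1, one_pow]
    exact Subgroup.one_mem _
  | mul a b _ _ iha ihb =>
    refine ⟨Subgroup.mul_mem _ iha.1 ihb.1, ?_⟩
    have hab : a * b = b * a := hX.comm i l i l hil hil hil.symm hil a iha.1 b ihb.1
    have hc : Commute (F a) (F b) := by
      show F a * F b = F b * F a
      rw [← hF.mul a b hab, ← hF.mul b a hab.symm, hab]
    rw [hF.mul a b hab, hc.mul_pow]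
    exact Subgroup.mul_mem _ iha.2 ihb.2
  | inv a _ iha =>
    refine ⟨Subgroup.inv_mem _ iha.1, ?_⟩
    rw [hinv, inv_pow]
    exact Subgroup.inv_mem _ iha.2

theorem WGI (hIMG : IMG_stmt) : WGI_stmt := by
  intro D _ n m N k _ F hF X hX
  obtain ⟨⟨h1, hinv, hpow⟩, him, -⟩ := hIMG D n k F hF
  have hab : ∀ i j : Fin m, i ≠ j → ∀ x ∈ X i j, ∀ y ∈ X i j, x * y = y * x := fun i j hij x hx y hy =>
    hX.comm i j i j hij hij hij.symm hij x hx y hy
  refine ⟨?_, ?_, ?_⟩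
  · intro i j p q hij hpq hjp hiq x hx y hy
    obtain ⟨a, ha, rfl⟩ := him (X i j) (hab i j hij) x hx
    obtain ⟨b, hb, rfl⟩ := him (X p q) (hab p q hpq) y hy
    have h2 : a * b = b * a := hX.comm i j p q hij hpq hjp hiq a ha b hb
    rw [← hF.mul a b h2, ← hF.mul b a h2.symm, h2]
  · intro i j l hij hjl hil x hx y hy
    obtain ⟨a, ha, rfl⟩ := him (X i j) (hab i j hij) x hx
    obtain ⟨b, hb, rfl⟩ := him (X j l) (hab j l hjl) y hy
    show F a * F b * (F a)⁻¹ * (F b)⁻¹ ∈ im F (X i l)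
    rw [WGI_com hF hX hij hjl hil ha hb]
    exact Subgroup.pow_mem _ (WGI_mem F _ (hX.sub i j l hij hjl hil a ha b hb)) k
  · intro i j l hij hjl hil g hg
    obtain ⟨x, hx, rfl⟩ := him (X i l) (hab i l hil) g hg
    rw [pow_mul, ← hpow]
    exact (WGI_clo hF h1 hinv hX hij hjl hil _ (hX.pow i j l hij hjl hil x hx)).2

end Pool.Agent.RG9
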